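import Mathlib
import Pool.Agent.H525.EX.Stm8

/-!
# Project EX (helper525), brick ARR: diagonal arrays

An array which is symmetric, and whose reflection is symmetric, is diagonal.
-/

set_option autoImplicit false

namespace Pool.Agent.H895.EX

open Pool.Agent.H525.EX

theorem arr_aux (ε : ℝ) (u : Arr) (hε : ε ≠ 0)
    (hneg : ∀ n e : ℤ, n < 0 → u n e = 0)
    (hsym : ∀ n e : ℤ, u n e = u e n)
    (href : ∀ n e : ℤ, ε ^ n * u n (2 * n - e) = ε ^ e * u e (2 * e - n)) :
    ∀ k : ℕ, ∀ n : ℤ, n < (k : ℤ) → ∀ e : ℤ, e ≠ n → u n e = 0 := by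
  intro k
  induction k with
  | zero =>
    intro n hn e _
    exact hneg n e (by simpa using hn)
  | succ k ih =>
    intro n hn e he
    push_cast at hn
    rcases lt_or_gt_of_ne he with h | h
    · rw [hsym n e]
      exact ih e (by omega) n (Ne.symm he)
    · have h1 := href n (2 * n - e)
      have h2 : 2 * n - (2 * n - e) = e := by ring
      rw [h2] at h1
      have h3 : u (2 * n - e) (2 * (2 * n - e) - n) = 0 :=
        ih (2 * n - e) (by omega) _ (by omega)
      rw [h3, mul_zero] at h1
      rcases mul_eq_zero.mp h1 with h4 | h4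
      · exact absurd h4 (zpow_ne_zero n hε)
      · exact h4

theorem t_arr : Pool.Agent.H525.EX.S_arr := by
  intro ε u hε hneg hsym href n e hne
  have hε0 : ε ≠ 0 := by
    rcases hε with h | h <;> rw [h] <;> norm_num
  exact arr_aux ε u hε0 hneg hsym href (n + 1).toNat n (by omega) e hne

end Pool.Agent.H895.EX
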